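import Mathlib
import Pool.Agent.V11221.CkCount

/-!
# An Ascoli `ℵ`-space which is not a `C[M]`-space
-/

namespace Pool.Agent.Results.MP_36ad39_gt.AscoliAleph

open Set Filter Topology TopologicalSpace

/-! ## Definitions -/

/-- `𝒩` is a k-network. -/
def IsKNetwork {T : Type*} [TopologicalSpace T] (𝒩 : Set (Set T)) : Prop :=
  ∀ K U : Set T, IsCompact K → IsOpen U → K ⊆ U →
    ∃ ℱ : Set (Set T), ℱ ⊆ 𝒩 ∧ ℱ.Finite ∧ K ⊆ ⋃₀ ℱ ∧ ⋃₀ ℱ ⊆ U

/-- A family of sets is locally finite: every point has a neighbourhood meeting only finitely many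
members. -/
def IsLocallyFiniteFamily {T : Type*} [TopologicalSpace T] (𝒩 : Set (Set T)) : Prop :=
  ∀ x : T, ∃ U ∈ 𝓝 x, {N ∈ 𝒩 | (N ∩ U).Nonempty}.Finite

/-- `T` is an `ℵ`-space: regular (`T₃`) with a `σ`-locally finite k-network. -/
def IsAlephSpace (T : Type*) [TopologicalSpace T] : Prop :=
  T3Space T ∧ ∃ 𝒩 : ℕ → Set (Set T), (∀ n, IsLocallyFiniteFamily (𝒩 n)) ∧ IsKNetwork (⋃ n, 𝒩 n)

/-- `T` is an Ascoli space: every compact subset `K` of `C_k(T)` is evenly continuous. -/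
def IsAscoliSpace (T : Type*) [TopologicalSpace T] : Prop :=
  ∀ K : Set C(T, ℝ), IsCompact K → Continuous fun p : K × T => (p.1 : C(T, ℝ)) p.2

/-- `T` is a `C[M]`-space: it embeds in `C_k(Z, Y)` for some separable metrizable `Z` and
metrizable `Y`. -/
def IsCMSpace.{u, v, w} (T : Type w) [TopologicalSpace T] : Prop :=
  ∃ (Z : Type u) (_ : TopologicalSpace Z) (_ : MetrizableSpace Z) (_ : SeparableSpace Z)
    (Y : Type v) (_ : TopologicalSpace Y) (_ : MetrizableSpace Y) (e : T → C(Z, Y)), IsEmbedding e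

/-! ## Fréchet–Urysohn spaces are Ascoli -/

theorem equicont_of_seq {X : Type*} [TopologicalSpace X] [T2Space X] {x₀ : X}
    (hx₀ : ∀ S : Set X, x₀ ∈ closure S → ∃ u : ℕ → X, (∀ n, u n ∈ S) ∧ Tendsto u atTop (𝓝 x₀))
    {K : Set C(X, ℝ)} (hK : IsCompact K) {ε : ℝ} (hε : 0 < ε) :
    {x : X | ∀ g ∈ K, dist (g x) (g x₀) < ε} ∈ 𝓝 x₀ := by
  by_contra hno
  have h1 : x₀ ∈ closure {x : X | ∀ g ∈ K, dist (g x) (g x₀) < ε}ᶜ := by
    rw [closure_compl]
    intro h
    exact hno (mem_interior_iff_mem_nhds.1 h)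
  obtain ⟨u, hu1, hu2⟩ := hx₀ _ h1
  have hL : IsCompact (insert x₀ (Set.range u)) := hu2.isCompact_insert_range
  have : CompactSpace (insert x₀ (Set.range u) : Set X) := isCompact_iff_compactSpace.1 hL
  let r : C(X, ℝ) → C((insert x₀ (Set.range u) : Set X), ℝ) := fun g => g.restrict _
  have hr : Continuous r := ContinuousMap.continuous_restrict _
  have hrK : IsCompact (r '' K) := hK.image hr
  let y₀ : (insert x₀ (Set.range u) : Set X) := ⟨x₀, Set.mem_insert _ _⟩
  let O : Set (C((insert x₀ (Set.range u) : Set X), ℝ) × (insert x₀ (Set.range u) : Set X)) :=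
    {z | dist (z.1 z.2) (z.1 y₀) < ε}
  have hO : IsOpen O := by
    apply isOpen_lt _ continuous_const
    apply Continuous.dist
    · exact continuous_eval
    · exact (continuous_eval_const y₀).comp continuous_fst
  obtain ⟨a, b, ha, hb, ha', hb', hab⟩ := generalized_tube_lemma hrK
    (isCompact_singleton (x := y₀)) hO (by
      rintro ⟨g, y⟩ ⟨-, hy⟩
      rw [Set.mem_singleton_iff] at hy
      change dist (g y) (g y₀) < ε
      change y = y₀ at hy
      rw [hy, dist_self]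
      exact hε)
  have hy₀ : y₀ ∈ b := hb' rfl
  have h2 : Tendsto (fun n => (⟨u n, Set.mem_insert_of_mem _ ⟨n, rfl⟩⟩ :
      (insert x₀ (Set.range u) : Set X))) atTop (𝓝 y₀) := by
    rw [tendsto_subtype_rng]
    exact hu2
  obtain ⟨n, hn⟩ := (h2.eventually (hb.mem_nhds hy₀)).exists
  apply hu1 n
  intro g hg
  have h3 : (r g, _) ∈ O := hab ⟨ha' ⟨g, hg, rfl⟩, hn⟩
  exact h3

theorem ascoli_of_seq {X : Type*} [TopologicalSpace X] [T2Space X]
    (hX : ∀ x₀ : X, ∀ S : Set X, x₀ ∈ closure S →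
      ∃ u : ℕ → X, (∀ n, u n ∈ S) ∧ Tendsto u atTop (𝓝 x₀)) : IsAscoliSpace X := by
  intro K hK
  rw [continuous_iff_continuousAt]
  rintro ⟨f, x₀⟩
  rw [Metric.continuousAt_iff']
  intro ε hε
  have h1 := equicont_of_seq (hX x₀) hK (half_pos hε)
  have h2 : {g : K | dist ((g : C(X, ℝ)) x₀) ((f : C(X, ℝ)) x₀) < ε / 2} ∈ 𝓝 f := by
    have hc : Continuous fun g : K => (g : C(X, ℝ)) x₀ :=
      (continuous_eval_const x₀).comp continuous_subtype_val
    have := hc.continuousAt (x := f)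
    exact this (Metric.ball_mem_nhds _ (half_pos hε))
  filter_upwards [prod_mem_nhds h2 h1] with z hz
  obtain ⟨hz1, hz2⟩ := hz
  have h3 := hz2 z.1 z.1.2
  calc dist ((z.1 : C(X, ℝ)) z.2) ((f : C(X, ℝ)) x₀) ≤
      dist ((z.1 : C(X, ℝ)) z.2) ((z.1 : C(X, ℝ)) x₀) +
        dist ((z.1 : C(X, ℝ)) x₀) ((f : C(X, ℝ)) x₀) := dist_triangle _ _ _
    _ < ε / 2 + ε / 2 := add_lt_add h3 hz1
    _ = ε := add_halves ε

/-! ## The summands -/

/-- The finite initial segment `x ↾ n`. -/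
def seg (x : ℕ → Bool) (n : ℕ) : List Bool := (List.range n).map x

theorem length_seg (x : ℕ → Bool) (n : ℕ) : (seg x n).length = n := by simp [seg]

theorem take_seg (x : ℕ → Bool) {m n : ℕ} (h : m ≤ n) : (seg x n).take m = seg x m := by
  rw [seg, seg, ← List.map_take, List.take_range, Nat.min_eq_left h]

theorem seg_prefix (x : ℕ → Bool) {m n : ℕ} (h : m ≤ n) : seg x m <+: seg x n := by
  rw [← take_seg x h]
  exact List.take_prefix _ _

theorem seg_eq {x y : ℕ → Bool} {n : ℕ} (h : seg x n = seg y n) : ∀ i < n, x i = y i := by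
  intro i hi
  have h1 := congrArg (fun l => l[i]?) h
  simpa [seg, hi] using h1

/-- The space `T_A`: the tree `2^{<ω}` (of isolated points) together with one point `∞ = none`. -/
def Sp (_ : Set (ℕ → Bool)) : Type := Option (List Bool)

/-- The points of the tree. -/
def Sp.node {A : Set (ℕ → Bool)} (s : List Bool) : Sp A := (some s : Option (List Bool))

/-- The point `∞`. -/
def Sp.inf {A : Set (ℕ → Bool)} : Sp A := (none : Option (List Bool))

theorem Sp.node_ne_inf {A : Set (ℕ → Bool)} (s : List Bool) : (Sp.node s : Sp A) ≠ Sp.inf :=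
  Option.some_ne_none s

theorem Sp.node_injective {A : Set (ℕ → Bool)} :
    Function.Injective (Sp.node : List Bool → Sp A) := Option.some_injective _

theorem Sp.cases {A : Set (ℕ → Bool)} (a : Sp A) : a = Sp.inf ∨ ∃ s, a = Sp.node s := by
  rcases a with _ | s
  · exact Or.inl rfl
  · exact Or.inr ⟨s, rfl⟩

/-- The set `U` contains the cone of all nodes extending `s`. -/
def HasCone {A : Set (ℕ → Bool)} (U : Set (Sp A)) (s : List Bool) : Prop :=
  ∀ t, s <+: t → Sp.node t ∈ U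

theorem HasCone.mono {A : Set (ℕ → Bool)} {U : Set (Sp A)} {s t : List Bool}
    (h : HasCone U s) (hst : s <+: t) : HasCone U t := fun r hr => h r (hst.trans hr)

/-- The topology of `T_A`: nodes are isolated, and `U ∋ ∞` is open iff for every `x ∈ A` it
contains the cone of some initial segment of `x`. -/
instance (A : Set (ℕ → Bool)) : TopologicalSpace (Sp A) where
  IsOpen U := Sp.inf ∈ U → ∀ x ∈ A, ∃ n, HasCone U (seg x n)
  isOpen_univ _ x _ := ⟨0, fun _ _ => Set.mem_univ _⟩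
  isOpen_inter U V hU hV h x hx := by
    obtain ⟨m, hm⟩ := hU h.1 x hx
    obtain ⟨n, hn⟩ := hV h.2 x hx
    exact ⟨max m n, fun t ht => ⟨hm.mono (seg_prefix x (le_max_left m n)) t ht,
      hn.mono (seg_prefix x (le_max_right m n)) t ht⟩⟩
  isOpen_sUnion 𝒰 h := by
    rintro ⟨U, hU, hinf⟩ x hx
    obtain ⟨n, hn⟩ := h U hU hinf x hx
    exact ⟨n, fun t ht => ⟨U, hU, hn t ht⟩⟩

variable {A : Set (ℕ → Bool)}

theorem isOpen_iff {U : Set (Sp A)} :
    IsOpen U ↔ (Sp.inf ∈ U → ∀ x ∈ A, ∃ n, HasCone U (seg x n)) := Iff.rfl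

theorem isOpen_of_notMem {U : Set (Sp A)} (h : Sp.inf ∉ U) : IsOpen U :=
  isOpen_iff.2 fun h' => absurd h' h

theorem isClosed_of_mem {U : Set (Sp A)} (h : Sp.inf ∈ U) : IsClosed U :=
  ⟨isOpen_of_notMem (fun h' => h' h)⟩

instance : T1Space (Sp A) where
  t1 a := by
    rcases a.cases with rfl | ⟨s, rfl⟩
    · exact isClosed_of_mem rfl
    · refine ⟨isOpen_iff.2 ?_⟩
      intro _ x _
      refine ⟨s.length + 1, ?_⟩
      intro t ht heq
      have h1 := Sp.node_injective heq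
      have h2 := ht.length_le
      rw [length_seg, h1] at h2
      omega

instance : RegularSpace (Sp A) := by
  refine RegularSpace.of_exists_mem_nhds_isClosed_subset ?_
  intro a s hs
  obtain ⟨U, hUs, hU, haU⟩ := mem_nhds_iff.1 hs
  rcases a.cases with rfl | ⟨t, rfl⟩
  · exact ⟨U, hU.mem_nhds haU, isClosed_of_mem haU, hUs⟩
  · refine ⟨{Sp.node t}, ?_, isClosed_singleton, ?_⟩
    · exact (isOpen_of_notMem (by
        rw [Set.mem_singleton_iff]
        exact fun h => Sp.node_ne_inf t h.symm)).mem_nhds rfl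
    · rintro _ rfl
      exact hUs haU

instance : T3Space (Sp A) := {}

/-- Sequences `x ↾ n` converge to `∞` exactly for `x ∈ A`. -/
theorem tendsto_seg_iff (A : Set (ℕ → Bool)) (x : ℕ → Bool) :
    Tendsto (fun n => (Sp.node (seg x n) : Sp A)) atTop (𝓝 Sp.inf) ↔ x ∈ A := by
  constructor
  · intro h
    by_contra hx
    have hopen : IsOpen {a : Sp A | ∀ n, a ≠ Sp.node (seg x n)} := by
      rw [isOpen_iff]
      intro _ y hy
      have hxy : x ≠ y := fun h => hx (h ▸ hy)
      obtain ⟨i, hi⟩ := Function.ne_iff.1 hxy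
      refine ⟨i + 1, ?_⟩
      intro t ht n hn
      have h1 : t = seg x n := Sp.node_injective hn
      subst h1
      have h2 := ht.length_le
      rw [length_seg, length_seg] at h2
      have h3 : seg y (i + 1) = seg x (i + 1) := by
        have := List.prefix_iff_eq_take.1 ht
        rw [length_seg, take_seg x h2] at this
        exact this
      exact hi (seg_eq h3 i (Nat.lt_succ_self i)).symm
    have h1 := h (hopen.mem_nhds (fun n => (Sp.node_ne_inf _).symm))
    obtain ⟨n, hn⟩ := Filter.nonempty_of_mem (Filter.mem_map.1 h1)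
    exact hn n rfl
  · intro hx U hU
    obtain ⟨V, hVU, hV, hinf⟩ := mem_nhds_iff.1 hU
    obtain ⟨n, hn⟩ := isOpen_iff.1 hV hinf x hx
    rw [Filter.mem_map]
    filter_upwards [eventually_ge_atTop n] with m hm
    exact hVU (hn _ (seg_prefix x hm))

/-- The space `T_A` is Fréchet–Urysohn. -/
theorem seq_limit (a : Sp A) (S : Set (Sp A)) (ha : a ∈ closure S) :
    ∃ u : ℕ → Sp A, (∀ n, u n ∈ S) ∧ Tendsto u atTop (𝓝 a) := by
  by_cases haS : a ∈ S
  · exact ⟨fun _ => a, fun _ => haS, tendsto_const_nhds⟩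
  rcases a.cases with rfl | ⟨t, rfl⟩
  · -- there is `x ∈ A` all of whose cones meet `S`
    have h1 : ∃ x ∈ A, ∀ n, ∃ t, seg x n <+: t ∧ Sp.node t ∈ S := by
      by_contra hcon
      push Not at hcon
      have hopen : IsOpen Sᶜ := by
        rw [isOpen_iff]
        intro _ x hx
        obtain ⟨n, hn⟩ := hcon x hx
        exact ⟨n, fun t ht => hn t ht⟩
      exact (closure_minimal (Set.subset_compl_comm.1 (Set.Subset.refl _))
        hopen.isClosed_compl (by simpa using ha) : _ ∈ _) haS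
    obtain ⟨x, hx, h2⟩ := h1
    choose t ht1 ht2 using h2
    refine ⟨fun n => Sp.node (t n), ht2, ?_⟩
    intro U hU
    obtain ⟨V, hVU, hV, hinf⟩ := mem_nhds_iff.1 hU
    obtain ⟨n, hn⟩ := isOpen_iff.1 hV hinf x hx
    rw [Filter.mem_map]
    filter_upwards [eventually_ge_atTop n] with m hm
    exact hVU (hn _ ((seg_prefix x hm).trans (ht1 m)))
  · exfalso
    have hopen : IsOpen ({Sp.node t} : Set (Sp A)) := isOpen_of_notMem (by
        rw [Set.mem_singleton_iff]
        exact fun h => Sp.node_ne_inf t h.symm)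
    obtain ⟨b, hb1, hb2⟩ := mem_closure_iff.1 ha _ hopen rfl
    rw [Set.mem_singleton_iff] at hb1
    exact haS (hb1 ▸ hb2)

/-- The members of the k-network: cones and singletons. -/
def member (A : Set (ℕ → Bool)) : List Bool ⊕ Option (List Bool) → Set (Sp A)
  | Sum.inl s => {a | ∃ t, s <+: t ∧ a = Sp.node t}
  | Sum.inr a => {a}

theorem finite_of_compact {C : Set (Sp A)} (hC : IsCompact C) (hinf : Sp.inf ∉ C) : C.Finite := by
  obtain ⟨t, ht⟩ := hC.elim_finite_subcover (fun s : List Bool => ({Sp.node s} : Set (Sp A)))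
    (fun s => isOpen_of_notMem (by
        rw [Set.mem_singleton_iff]
        exact fun h => Sp.node_ne_inf s h.symm)) (by
      intro a ha
      rcases a.cases with rfl | ⟨s, rfl⟩
      · exact absurd ha hinf
      · exact Set.mem_iUnion.2 ⟨s, rfl⟩)
  exact (t.finite_toSet.biUnion fun s _ => Set.finite_singleton _).subset ht

theorem isKNetwork_range_member (A : Set (ℕ → Bool)) : IsKNetwork (Set.range (member A)) := by
  classical
  intro K U hK hU hKU
  by_cases hinf : Sp.inf ∈ K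
  swap
  · have hfin := finite_of_compact hK hinf
    refine ⟨(fun a => {a}) '' K, ?_, hfin.image _, ?_, ?_⟩
    · rintro _ ⟨a, -, rfl⟩
      exact ⟨Sum.inr a, rfl⟩
    · intro a ha
      exact ⟨{a}, ⟨a, ha, rfl⟩, rfl⟩
    · rintro a ⟨_, ⟨b, hb, rfl⟩, hab⟩
      rw [Set.mem_singleton_iff.1 hab]
      exact hKU hb
  have hinfU : Sp.inf ∈ U := hKU hinf
  -- the minimal node above which there is a cone
  have hex : ∀ t : List Bool, HasCone U t → ∃ n, HasCone U (t.take n) := fun t ht =>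
    ⟨t.length, by rwa [List.take_length]⟩
  let m : List Bool → List Bool := fun t =>
    if h : ∃ n, HasCone U (t.take n) then t.take (Nat.find h) else t
  have hm1 : ∀ t, HasCone U t → HasCone U (m t) := by
    intro t ht
    simp only [m]
    rw [dif_pos (hex t ht)]
    exact Nat.find_spec (hex t ht)
  have hm2 : ∀ t, m t <+: t := by
    intro t
    simp only [m]
    split_ifs with h
    · exact List.take_prefix _ _
    · exact List.prefix_refl _
  have hm3 : ∀ x ∈ A, ∃ n, HasCone U (seg x n) ∧ ∀ t, seg x n <+: t → m t = seg x n := by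
    intro x hx
    have h := isOpen_iff.1 hU hinfU x hx
    refine ⟨Nat.find h, Nat.find_spec h, ?_⟩
    intro t ht
    have htake : ∀ j ≤ Nat.find h, t.take j = seg x j := by
      intro j hj
      have h1 := List.prefix_iff_eq_take.1 ht
      rw [length_seg] at h1
      rw [← take_seg x hj, h1, List.take_take, Nat.min_eq_left hj]
    have h' : ∃ n, HasCone U (t.take n) := ⟨Nat.find h, by
      rw [htake _ le_rfl]
      exact Nat.find_spec h⟩
    have h2 : Nat.find h' = Nat.find h := by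
      rw [Nat.find_eq_iff]
      refine ⟨by
        rw [htake _ le_rfl]
        exact Nat.find_spec h, ?_⟩
      intro j hj
      rw [htake j hj.le]
      exact Nat.find_min h hj
    simp only [m]
    rw [dif_pos h', h2, htake _ le_rfl]
  let R : Set (List Bool) := m '' {t | Sp.node t ∈ K ∧ HasCone U t}
  have hRk : ∀ r : R, ∃ t, Sp.node t ∈ K ∧ HasCone U t ∧ m t = r := by
    rintro ⟨r, t, ⟨h1, h2⟩, h3⟩
    exact ⟨t, h1, h2, h3⟩
  choose k hk1 hk2 hk3 using hRk
  let S : Set (Sp A) := Set.range fun r : R => Sp.node (k r)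
  have hSclosed : IsClosed S := by
    refine ⟨isOpen_iff.2 ?_⟩
    intro _ x hx
    obtain ⟨n, hn1, hn2⟩ := hm3 x hx
    by_cases hr : seg x n ∈ R
    · refine ⟨max n ((k ⟨seg x n, hr⟩).length + 1), ?_⟩
      rintro t ht ⟨r, hrt⟩
      have h1 : k r = t := Sp.node_injective hrt
      have h2 : seg x n <+: t := (seg_prefix x (le_max_left _ _)).trans ht
      have h3 := hn2 t h2
      have h4 : m t = r := h1 ▸ hk3 r
      have h5 : r = ⟨seg x n, hr⟩ := Subtype.ext (h4.symm.trans h3)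
      have h6 := ht.length_le
      rw [length_seg, ← h1, h5] at h6
      have := le_max_right n ((k ⟨seg x n, hr⟩).length + 1)
      omega
    · refine ⟨n, ?_⟩
      rintro t ht ⟨r, hrt⟩
      have h1 : k r = t := Sp.node_injective hrt
      have h3 := hn2 t ht
      have h4 : m t = r := h1 ▸ hk3 r
      exact hr (by rw [← h3, h4]; exact r.2)
  have hSfin : S.Finite := by
    apply finite_of_compact
    · exact hK.of_isClosed_subset hSclosed (by
        rintro _ ⟨r, rfl⟩
        exact hk1 r)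
    · rintro ⟨r, hr⟩
      exact Sp.node_ne_inf _ hr
  have hRfin : R.Finite := by
    have hinj : Function.Injective fun r : R => (Sp.node (k r) : Sp A) := by
      intro r r' h
      have h1 : k r = k r' := Sp.node_injective h
      apply Subtype.ext
      rw [← hk3 r, ← hk3 r', h1]
    have : Finite R := by
      have h2 : Finite (Set.range fun r : R => (Sp.node (k r) : Sp A)) := hSfin
      exact Finite.of_injective_finite_range hinj
    exact Set.toFinite R
  -- the rest of `K`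
  let V : Set (Sp A) := {a | a = Sp.inf ∨ ∃ t, a = Sp.node t ∧ HasCone U t}
  have hV : IsOpen V := by
    rw [isOpen_iff]
    intro _ x hx
    obtain ⟨n, hn1, hn2⟩ := hm3 x hx
    exact ⟨n, fun t ht => Or.inr ⟨t, rfl, hn1.mono ht⟩⟩
  have hrest : (K \ V).Finite := by
    apply finite_of_compact (hK.diff hV)
    rintro ⟨-, h⟩
    exact h (Or.inl rfl)
  refine ⟨(member A ∘ Sum.inl) '' R ∪ insert {Sp.inf} ((fun a => {a}) '' (K \ V)), ?_, ?_, ?_, ?_⟩
  · rintro _ (⟨s, -, rfl⟩ | rfl | ⟨a, -, rfl⟩)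
    · exact ⟨Sum.inl s, rfl⟩
    · exact ⟨Sum.inr none, rfl⟩
    · exact ⟨Sum.inr a, rfl⟩
  · exact (hRfin.image _).union ((hrest.image _).insert _)
  · intro a ha
    by_cases haV : a ∈ V
    · rcases haV with rfl | ⟨t, rfl, ht⟩
      · exact ⟨{Sp.inf}, Or.inr (Or.inl rfl), rfl⟩
      · exact ⟨member A (Sum.inl (m t)), Or.inl ⟨m t, ⟨t, ⟨ha, ht⟩, rfl⟩, rfl⟩, t, hm2 t, rfl⟩
    · exact ⟨{a}, Or.inr (Or.inr ⟨a, ⟨ha, haV⟩, rfl⟩), rfl⟩
  · rintro a ⟨_, (⟨s, ⟨t, ⟨ht1, ht2⟩, rfl⟩, rfl⟩ | rfl | ⟨b, hb, rfl⟩), haN⟩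
    · obtain ⟨t', ht', rfl⟩ := haN
      exact hm1 t ht2 t' ht'
    · rw [Set.mem_singleton_iff.1 haN]
      exact hinfU
    · rw [Set.mem_singleton_iff.1 haN]
      exact hKU hb.1

/-! ## The sum -/

/-- The example: the topological sum of all `T_A`, `A ⊆ 2^ω`. -/
abbrev X : Type := Σ A : Set (ℕ → Bool), Sp A

instance : RegularSpace X := by
  refine RegularSpace.of_exists_mem_nhds_isClosed_subset ?_
  rintro ⟨A, a⟩ s hs
  rw [Sigma.nhds_mk] at hs
  obtain ⟨t, ht1, ht2, ht3⟩ := exists_mem_nhds_isClosed_subset (Filter.mem_map.1 hs)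
  refine ⟨Sigma.mk A '' t, ?_, isClosedMap_sigmaMk _ ht2, ?_⟩
  · rw [Sigma.nhds_mk]
    exact Filter.image_mem_map ht1
  · rintro _ ⟨b, hb, rfl⟩
    exact ht3 hb

instance : T3Space X := {}

theorem seq_limit_X (x : X) (S : Set X) (hx : x ∈ closure S) :
    ∃ u : ℕ → X, (∀ n, u n ∈ S) ∧ Tendsto u atTop (𝓝 x) := by
  obtain ⟨A, a⟩ := x
  have h1 : a ∈ closure (Sigma.mk A ⁻¹' S) := by
    rw [mem_closure_iff]
    intro V hV haV
    obtain ⟨_, ⟨b, hb, rfl⟩, hbS⟩ := mem_closure_iff.1 hx (Sigma.mk A '' V)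
      (isOpenMap_sigmaMk V hV) ⟨a, haV, rfl⟩
    exact ⟨b, hb, hbS⟩
  obtain ⟨u, hu1, hu2⟩ := seq_limit a _ h1
  exact ⟨fun n => ⟨A, u n⟩, hu1, (continuous_sigmaMk.tendsto a).comp hu2⟩

theorem isAlephSpace_X : IsAlephSpace X := by
  refine ⟨inferInstance, ?_⟩
  obtain ⟨e, he⟩ := exists_surjective_nat (List Bool ⊕ Option (List Bool))
  refine ⟨fun n => Set.range fun A : Set (ℕ → Bool) => Sigma.mk A '' (member A (e n)), ?_, ?_⟩
  · rintro n ⟨A, a⟩
    refine ⟨Set.range (Sigma.mk A), isOpen_range_sigmaMk.mem_nhds ⟨a, rfl⟩, ?_⟩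
    apply (Set.finite_singleton (Sigma.mk A '' (member A (e n)))).subset
    rintro _ ⟨⟨B, rfl⟩, ⟨_, ⟨b, hb, rfl⟩, ⟨c, hc⟩⟩⟩
    have : A = B := congrArg Sigma.fst hc
    subst this
    rfl
  · intro K U hK hU hKU
    classical
    obtain ⟨t, ht⟩ := hK.elim_finite_subcover (fun A => Set.range (Sigma.mk A : Sp A → X))
      (fun A => isOpen_range_sigmaMk) (by
        rintro ⟨A, a⟩ _
        exact Set.mem_iUnion.2 ⟨A, a, rfl⟩)
    have h3 : ∀ A : Set (ℕ → Bool), ∃ ℱ : Set (Set (Sp A)), ℱ ⊆ Set.range (member A) ∧ ℱ.Finite ∧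
        (Sigma.mk A ⁻¹' K) ⊆ ⋃₀ ℱ ∧ ⋃₀ ℱ ⊆ (Sigma.mk A ⁻¹' U) := by
      intro A
      exact isKNetwork_range_member A _ _ (IsClosedEmbedding.sigmaMk.isCompact_preimage hK)
        (hU.preimage continuous_sigmaMk) (Set.preimage_mono hKU)
    choose ℱ hℱ1 hℱ2 hℱ3 hℱ4 using h3
    refine ⟨⋃ A ∈ t, (fun N => Sigma.mk A '' N) '' (ℱ A), ?_, ?_, ?_, ?_⟩
    · refine Set.iUnion₂_subset fun A _ => ?_
      rintro _ ⟨N, hN, rfl⟩
      obtain ⟨j, rfl⟩ := hℱ1 A hN
      obtain ⟨n, rfl⟩ := he j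
      exact Set.mem_iUnion.2 ⟨n, A, rfl⟩
    · exact t.finite_toSet.biUnion fun A _ => (hℱ2 A).image _
    · rintro ⟨A, a⟩ hx
      have hA : A ∈ t := by
        have := ht hx
        simp only [Set.mem_iUnion] at this
        obtain ⟨B, hB, y, hy⟩ := this
        have : B = A := congrArg Sigma.fst hy
        exact this ▸ hB
      obtain ⟨N, hN, hxN⟩ := hℱ3 A (show a ∈ Sigma.mk A ⁻¹' K from hx)
      exact ⟨Sigma.mk A '' N, Set.mem_biUnion hA ⟨N, hN, rfl⟩, a, hxN, rfl⟩
    · rintro y ⟨B, hB, hyB⟩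
      simp only [Set.mem_iUnion] at hB
      obtain ⟨A, hA, N, hN, rfl⟩ := hB
      obtain ⟨x, hx, rfl⟩ := hyB
      exact hℱ4 A ⟨N, hN, hx⟩

/-- There is an Ascoli `ℵ`-space (even a Fréchet–Urysohn one) which is not a `C[M]`-space. -/
theorem result.{u, v} : FrechetUrysohnSpace X ∧ IsAscoliSpace X ∧ IsAlephSpace X ∧
    ¬ IsCMSpace.{u, v} X := by
  refine ⟨⟨fun S x hx => seq_limit_X x S hx⟩, ascoli_of_seq seq_limit_X, isAlephSpace_X, ?_⟩
  rintro ⟨Z, _, _, _, Y, _, _, e, he⟩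
  refine Pool.Agent.V11221.CkCount.no_simultaneous_embedding (Z := Z) (Y := Y) (ι := List Bool)
    (fun A => Sp A) (fun A => Sp.node) (fun A => Sp.inf) ?_
    (fun A a => e ⟨A, a⟩) (fun A => ?_)
  · intro A A' h
    ext x
    have h1 := h (Filter.map (seg x) atTop)
    rw [tendsto_map'_iff, tendsto_map'_iff] at h1
    exact (tendsto_seg_iff A x).symm.trans (h1.trans (tendsto_seg_iff A' x))
  · exact (he.comp IsEmbedding.sigmaMk).isInducing

end Pool.Agent.Results.MP_36ad39_gt.AscoliAleph
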